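import Pool.Agent.OrthCoord.CircleSum

set_option autoImplicit false
open scoped Manifold ContDiff

namespace Pool.Agent.Results.MP_4b68cf_gt.CircleSums

open Pool.Agent.OrthCoord

/-- Circle sums in dimension `n = k + 4 ≥ 4`. (1) Let `g` be a metric on `N` with orthogonal
coordinates around every point, `T a j` finitely many disjoint circle tubes whose coordinates
become orthogonal for `g` after a turn with constant speeds `α a j`. Removing the closed tubes of
radius `1/2` and gluing the rest of `T a false` and `T a true`, for every `a`, by the inversion of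
the normal discs gives a manifold `M` that carries a metric with orthogonal coordinates around
every point. (2) If `N` carries any such metric at all, the same holds for the round tubes, framed
by any numbers `m false`, `m true` of turns, in any two disjoint discs of `N`. -/
theorem result :
    (∀ (k : ℕ) (ι N M : Type) [Finite ι]
      [TopologicalSpace N] [ChartedSpace (E (k + 4)) N] [IsManifold (𝓡 (k + 4)) ∞ N]
      [TopologicalSpace M] [ChartedSpace (E (k + 4)) M] [IsManifold (𝓡 (k + 4)) ∞ M]
      (T : ι → Bool → E (k + 4) → N) (i : N → M) (g : RMetric (k + 4) N) (α : ι → Bool → ℝ),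
      Tubes (k + 4) (discDirs k) (turns k) T → IsTubeSum (k + 4) (discDirs k) T i →
      HasOrthCoords (k + 4) g → TurnAdapted k g T α → HasOrthogonalMetric (k + 4) M) ∧
    (∀ (k : ℕ) (N M : Type)
      [TopologicalSpace N] [T2Space N] [ChartedSpace (E (k + 4)) N]
      [IsManifold (𝓡 (k + 4)) ∞ N]
      [TopologicalSpace M] [ChartedSpace (E (k + 4)) M] [IsManifold (𝓡 (k + 4)) ∞ M]
      (φ : Bool → E (k + 4) → N) (m : Bool → ℤ) (i : N → M),
      TwoDiscs (k + 4) φ → IsTubeSum (k + 4) (discDirs k) (framedTubes m φ) i →
      HasOrthogonalMetric (k + 4) N → HasOrthogonalMetric (k + 4) M) := by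
  refine ⟨?_, ?_⟩
  · intro k ι N M _ _ _ _ _ _ _ T i g α hT H hg hA
    exact H.hasOrthogonalMetric_of_turnAdapted hT g hg α hA
  · intro k N M _ _ _ _ _ _ _ φ m i hφ H hN
    exact hasOrthogonalMetric_framed m hφ H hN

end Pool.Agent.Results.MP_4b68cf_gt.CircleSums
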