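import Pool.Agent.OrthCoord.FlatGlue

set_option autoImplicit false
open scoped Manifold ContDiff

namespace Pool.Agent.Results.MP_4b68cf_gt.FlatGluings

open Pool.Agent.OrthCoord

/-- Let `g` be a metric on the `n`-manifold `N` with orthogonal coordinates around every point and
let `C a j` be finitely many disjoint collars of flat hypersurfaces whose flat coordinates are
orthogonal for `g`. Cut `N` open (the closed set `R`, which meets every collar exactly in its part
`1 ≤ τ`, is removed) and glue the parts `|τ| < 1` of `C a false` and `C a true`, for every `a`, by
any linear isomorphism `L a` that reverses the levels. Then the `n`-manifold `M` obtained carries a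
smooth Riemannian metric with orthogonal coordinates around every point. -/
theorem result (n : ℕ) (ι N M : Type) [Finite ι]
    [TopologicalSpace N] [ChartedSpace (E n) N] [IsManifold (𝓡 n) ∞ N]
    [TopologicalSpace M] [ChartedSpace (E n) M] [IsManifold (𝓡 n) ∞ M]
    (g : RMetric n N) (τ : ι → Bool → LinFun n) (C : ι → Bool → E n → N)
    (L : ι → LinAut n) (R : Set N) (i : N → M) :
    HasOrthCoords n g → Collars n τ C → CollarAdapted n g τ C →
      IsCollarGluing n τ C L R i → HasOrthogonalMetric n M :=
  fun hg hC hA H => H.hasOrthogonalMetric hC g hg hA

end Pool.Agent.Results.MP_4b68cf_gt.FlatGluings
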