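import Pool.Agent.OrthCoord.Neck

set_option autoImplicit false
open scoped Manifold ContDiff

namespace Pool.Agent.Results.MP_4b68cf_gt.Necks

open Pool.Agent.OrthCoord

/-- Adding a neck (connected sum of two components, or surgery on a `0`-sphere in one component),
in any dimension `n`, along any two disjoint smoothly embedded discs, preserves the property of
carrying a smooth Riemannian metric with orthogonal coordinates around every point. -/
theorem result :
    ∀ (n : ℕ) (N M : Type) [TopologicalSpace N] [T2Space N] [ChartedSpace (E n) N]
      [IsManifold (𝓡 n) ∞ N] [TopologicalSpace M] [ChartedSpace (E n) M]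
      [IsManifold (𝓡 n) ∞ M] (φ : Bool → E n → N) (i : N → M),
      IsNeck n φ i → HasOrthogonalMetric n N → HasOrthogonalMetric n M := by
  intro n N M _ _ _ _ _ _ _ φ i H hN
  exact H.hasOrthogonalMetric hN

end Pool.Agent.Results.MP_4b68cf_gt.Necks
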