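import Pool.Agent.OrthCoord.BlowUp

set_option autoImplicit false
open scoped Manifold ContDiff

namespace Pool.Agent.Results.MP_4b68cf_gt.PuncturedPlane

open Pool.Agent.OrthCoord

/-- The blow-up `X` of `ℂ²` at the origin (equivalently, the complex projective plane minus a
point) carries a smooth Riemannian metric that admits orthogonal coordinates around every point,
and so does every smooth 4-manifold `M` that has a local diffeomorphism `F : M → X`. -/
theorem result :
    ∀ (X : Type) [TopologicalSpace X] [ChartedSpace (E 4) X] (a b : E 4 → X),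
      IsBlowUp X a b →
      ∀ (M : Type) [TopologicalSpace M] [T2Space M] [SecondCountableTopology M]
        [ChartedSpace (E 4) M] [IsManifold (𝓡 4) ∞ M] (F : M → X),
        LocDiffeo 4 F → HasOrthogonalMetric 4 M := by
  intro X _ _ a b H M _ _ _ _ _ F hF
  obtain ⟨V, p, q, h, D⟩ := H.mutuallyDiagonal
  obtain ⟨V', p', D'⟩ := D.pullback hF
  exact hasOrthogonalMetric_of_mutuallyDiagonal D'

end Pool.Agent.Results.MP_4b68cf_gt.PuncturedPlane
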